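import Pool.Agent.Helper25.CB.SysK

/-!
# CB, INST: the sieve system with a scaling `μ` prime to the places of the system
-/

set_option autoImplicit false

namespace Pool.Agent.Helper25.CB

open Finset NumberField Polynomial Pool.Agent.Helper4.CB
open Pool.Agent.Helper35.CB (Pm eK)

variable {K : Type} [Field K] [NumberField K]

/-! ## the system -/

/-- the sieve system -/
noncomputable def sysG (S : Finset (𝓞 K)[X]) (hS : ∀ P ∈ S, P.Monic) (μ : 𝓞 K) (m D : ℕ)
    (hμ : ∀ q : Pm K m, μ ∉ q.1.asIdeal) (hD : ∑ P ∈ S, P.natDegree + 1 ≤ D) :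
    Sys (2 * Module.finrank ℚ K) (𝓞 K × 𝓞 K) where
  e := eK K
  Q := Pm K m
  nm := fun q => nm q.1
  Γ := fun q => gam q.1.asIdeal
  E := fun q => EV S μ q.1
  D := D
  two_le := fun q => two_le_nm q.1
  fin := fun x => (finite_nm_le K x).preimage Subtype.val_injective.injOn
  index := fun q => index_gam_pl q.1
  smul_mem := fun q g => nm_nsmul_mem q.1 g
  com := fun T q hq => com_pl T (fun i => i.1) q.1 (fun i hi h => hq (by
    have h1 : i = q := Subtype.ext h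
    rwa [← h1]))
  add_mem := fun q _ _ hg hh => EV_add_mem hS (hμ q) hg hh
  sub := fun _ _ hg => Or.inl hg.2
  dens := fun q => dens_EV hS (hμ q) hD

variable {S : Finset (𝓞 K)[X]} {hS : ∀ P ∈ S, P.Monic} {μ : 𝓞 K} {m D : ℕ}
  {hμ : ∀ q : Pm K m, μ ∉ q.1.asIdeal} {hD : ∑ P ∈ S, P.natDegree + 1 ≤ D}

/-- comaximality with the base lattice -/
theorem sysG_com (T : Finset (sysG S hS μ m D hμ hD).Q) :
    gam (Ideal.span {(m : 𝓞 K)}) ⊔ T.inf (sysG S hS μ m D hμ hD).Γ = ⊤ :=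
  com_span T (fun i => i.1) (m : 𝓞 K) (fun i _ => i.2)

/-- the factor `v` -/
noncomputable def facVG (S : Finset (𝓞 K)[X]) (hS : ∀ P ∈ S, P.Monic) (μ : 𝓞 K) (m D : ℕ)
    (hμ : ∀ q : Pm K m, μ ∉ q.1.asIdeal) (hD : ∑ P ∈ S, P.natDegree + 1 ≤ D) :
    Fac (Module.finrank ℚ K) (sysG S hS μ m D hμ hD) where
  P := Pm K m
  pn := fun p => nm p.1
  un := fun p => p
  Λ := fun p => lav p.1
  d := 1
  one_le := le_rfl
  le_two := one_le_two
  index := fun p => index_lav p.1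
  le := fun p => gam_le_lav p.1
  nm_le := fun _ => le_rfl
  fib_fin := fun q => by
    refine (Set.finite_singleton q).subset ?_
    intro p hp
    exact hp
  fib := fun q => by
    have h : ∀ q' : Pm K m, ({p : Pm K m | p = q'} : Set (Pm K m)).ncard ≤ 2 := by
      intro q'
      rw [Set.ofPred_eq_eq_singleton, Set.ncard_singleton]
      norm_num
    exact h q
  C := (rad_snd K (eK K)).choose
  rad := fun p ρ hρ => (rad_snd K (eK K)).choose_spec p.1 (lav p.1) (fun _ => mem_lav) ρ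
    (by rwa [one_mul] at hρ)

/-- the factor `P(u, m v)` -/
noncomputable def facPG (S : Finset (𝓞 K)[X]) (hS : ∀ P ∈ S, P.Monic) (μ : 𝓞 K) (m D : ℕ)
    (hμ : ∀ q : Pm K m, μ ∉ q.1.asIdeal) (hD : ∑ P ∈ S, P.natDegree + 1 ≤ D) (hμ0 : μ ≠ 0)
    (P : (𝓞 K)[X]) (hP : P.Monic)
    (h1 : 1 ≤ P.natDegree) (h2 : P.natDegree ≤ 2)
    (hirr : Irreducible (P.map (algebraMap (𝓞 K) K))) :
    Fac (Module.finrank ℚ K) (sysG S hS μ m D hμ hD) where
  P := Σ q : Pm K m, {t : 𝓞 K // t ∈ rts P hP q.1}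
  pn := fun p => nm p.1.1
  un := fun p => p.1
  Λ := fun p => lam p.1.1.asIdeal (μ * p.2.1)
  d := P.natDegree
  one_le := h1
  le_two := h2
  index := fun p => index_lam_pl p.1.1 _
  le := fun p => gam_le_lam _ _
  nm_le := fun _ => le_rfl
  fib_fin := fun q => by
    refine (Set.finite_range (fun t : {t : 𝓞 K // t ∈ rts P hP q.1} =>
      (⟨q, t⟩ : Σ q : Pm K m, {t : 𝓞 K // t ∈ rts P hP q.1}))).subset ?_
    rintro ⟨q', t⟩ hp
    have hp' : q' = q := hp
    subst hp'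
    exact ⟨t, rfl⟩
  fib := fun q => by
    have h3 : {p : Σ q : Pm K m, {t : 𝓞 K // t ∈ rts P hP q.1} |
        p.1 = q} ⊆ Set.range (fun t : {t : 𝓞 K // t ∈ rts P hP q.1} =>
      (⟨q, t⟩ : Σ q : Pm K m, {t : 𝓞 K // t ∈ rts P hP q.1})) := by
      rintro ⟨q', t⟩ hp
      have hp' : q' = q := hp
      subst hp'
      exact ⟨t, rfl⟩
    refine (Set.ncard_le_ncard h3 (Set.finite_range _)).trans ?_
    rw [← Set.image_univ]
    refine (Set.ncard_image_le (Set.finite_univ)).trans ?_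
    rw [Set.ncard_univ, Nat.card_eq_fintype_card, Fintype.card_coe]
    exact (rts_card P hP q.1).trans h2
  C := (rad_fac K (eK K) P hP hirr h2 μ hμ0).choose
  rad := fun p ρ hρ =>
    (rad_fac K (eK K) P hP hirr h2 μ hμ0).choose_spec p.1.1 p.2.1
      (rts_root p.2.2) _ (fun _ => mem_lam) ρ hρ

/-- **cover**: the events are covered by the lattices of the factors -/
theorem EVG_cover (hS : ∀ P ∈ S, P.Monic) (q : Pm K m) (hμ : μ ∉ q.1.asIdeal) {g : 𝓞 K × 𝓞 K}
    (hg : g ∈ EV S μ q.1) :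
    g ∈ lav q.1 ∨ ∃ (P : (𝓞 K)[X]) (hP : P ∈ S), ∃ t ∈ rts P (hS P hP) q.1,
      g ∈ lam q.1.asIdeal (μ * t) :=
  (mem_EV_iff hS hμ g).1 hg

/-! ## sums over the places -/

/-- the place of an index of the system -/
def toPlG (q : (sysG S hS μ m D hμ hD).Q) : Pl K := (show Pm K m from q).1

theorem toPlG_inj : Function.Injective (toPlG (S := S) (hS := hS) (m := m) (hμ := hμ) (hD := hD)) :=
  fun _ _ h => Subtype.ext h

/-- sums over the places of the system -/
theorem sum_le_sum_sysG (y : ℕ) (p : Pl K → Prop) (f : ℕ → ℝ) (hf : ∀ n, 0 ≤ f n)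
    (_ : DecidablePred (fun q : (sysG S hS μ m D hμ hD).Q => p (toPlG q)))
    (_ : DecidablePred p) :
    ∑ q ∈ ((sysG S hS μ m D hμ hD).le y).filter (fun q => p (toPlG q)),
      f ((sysG S hS μ m D hμ hD).nm q) ≤ ∑ v ∈ (plLE K y).filter p, f (nm v) := by
  have h1 : ∑ q ∈ ((sysG S hS μ m D hμ hD).le y).filter (fun q => p (toPlG q)),
      f ((sysG S hS μ m D hμ hD).nm q) =
      ∑ v ∈ (((sysG S hS μ m D hμ hD).le y).filter (fun q => p (toPlG q))).map
        ⟨toPlG, toPlG_inj⟩, f (nm v) := by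
    rw [sum_map]
    rfl
  rw [h1]
  refine sum_le_sum_of_subset_of_nonneg ?_ (fun v _ _ => hf _)
  intro v hv
  rw [mem_map] at hv
  obtain ⟨q, hq, rfl⟩ := hv
  rw [mem_filter, Sys.mem_le] at hq
  rw [mem_filter, mem_plLE]
  exact hq

/-- the sum of `N q ^ (-3/2)` -/
theorem rpow_sysG {C : ℝ} (hC : ∀ F : Finset (Pl K), ∑ v ∈ F, (nm v : ℝ) ^ (-(3 / 2) : ℝ) ≤ C)
    (T : Finset (sysG S hS μ m D hμ hD).Q) :
    ∑ q ∈ T, ((sysG S hS μ m D hμ hD).nm q : ℝ) ^ (-(3 / 2) : ℝ) ≤ C := by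
  refine le_trans (le_of_eq ?_) (hC (T.map ⟨toPlG, toPlG_inj⟩))
  rw [sum_map]
  rfl

open Classical in
/-- Mertens' upper bound for the system -/
theorem mert_sysG {C : ℝ} (hC : ∀ x y : ℕ, 1 ≤ x → x ≤ y →
      ∑ v ∈ (plLE K y).filter (fun v => x < nm v), Real.log (nm v) / nm v ≤
        C * (Real.log y - Real.log x + 1)) : (sysG S hS μ m D hμ hD).Mert C := by
  intro x y hx hxy
  refine le_trans ?_ (hC x y hx hxy)
  refine le_trans (le_of_eq ?_) (sum_le_sum_sysG (S := S) (hS := hS) (m := m) (hμ := hμ) (hD := hD) y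
    (fun v => x < nm v) (fun n => Real.log n / n)
    (fun n => div_nonneg (Real.log_natCast_nonneg n) (Nat.cast_nonneg n))
    (Classical.decPred _) _)
  refine Finset.sum_congr ?_ (fun _ _ => rfl)
  ext q
  rw [mem_filter, mem_filter]
  exact Iff.rfl

open Classical in
/-- the sum over the bad places of the system -/
theorem bad_sysG {ε : ℝ} {M : ℕ} (hC : ∀ x : ℕ, 1 ≤ x →
      ∑ v ∈ (plLE K x).filter (fun v => nm v ≡ 1 [MOD M]), Real.log (nm v) / nm v ≤
        ε * Real.log x) (x : ℕ) (hx : 1 ≤ x) :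
    ∑ q ∈ ((sysG S hS μ m D hμ hD).le x).filter
      (fun q => q ∈ {q : (sysG S hS μ m D hμ hD).Q | nm (toPlG q) ≡ 1 [MOD M]}),
      Real.log ((sysG S hS μ m D hμ hD).nm q) / (sysG S hS μ m D hμ hD).nm q ≤
        ε * Real.log x := by
  refine le_trans ?_ (hC x hx)
  refine le_trans (le_of_eq ?_) (sum_le_sum_sysG (S := S) (hS := hS) (m := m) (hμ := hμ) (hD := hD) x
    (fun v => nm v ≡ 1 [MOD M]) (fun n => Real.log n / n)
    (fun n => div_nonneg (Real.log_natCast_nonneg n) (Nat.cast_nonneg n))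
    (Classical.decPred _) _)
  refine Finset.sum_congr ?_ (fun _ _ => rfl)
  ext q
  rw [mem_filter, mem_filter]
  exact Iff.rfl

end Pool.Agent.Helper25.CB
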