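import Pool.Agent.Helper25.CB.Rad

/-!
# CB: indices and comaximality of the lattices of `𝓞 K × 𝓞 K`
-/

set_option autoImplicit false

namespace Pool.Agent.Helper25.CB

open Finset NumberField Polynomial Pool.Agent.Helper4.CB

/-- the lattice of all `(u, v)` with `u, v ∈ I` -/
def gam {A : Type} [CommRing A] (I : Ideal A) : AddSubgroup (A × A) :=
  I.toAddSubgroup.prod I.toAddSubgroup

theorem mem_gam {A : Type} [CommRing A] {I : Ideal A} {x : A × A} :
    x ∈ gam I ↔ x.1 ∈ I ∧ x.2 ∈ I := Iff.rfl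

theorem gam_le_lam {A : Type} [CommRing A] (I : Ideal A) (s : A) : gam I ≤ lam I s := by
  intro x hx
  rw [mem_gam] at hx
  rw [mem_lam]
  exact I.sub_mem hx.1 (I.mul_mem_left _ hx.2)

theorem gam_mono {A : Type} [CommRing A] {I J : Ideal A} (h : I ≤ J) : gam I ≤ gam J :=
  fun _ hx => ⟨h hx.1, h hx.2⟩

/-- comaximal ideals give comaximal lattices -/
theorem gam_sup {A : Type} [CommRing A] {I J : Ideal A} (h : I ⊔ J = ⊤) : gam I ⊔ gam J = ⊤ := by
  rw [eq_top_iff]
  intro x _
  obtain ⟨a, ha, b, hb, hab⟩ := Submodule.mem_sup.1 ((Ideal.eq_top_iff_one _).1 h)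
  rw [AddSubgroup.mem_sup]
  refine ⟨(a * x.1, a * x.2), ⟨I.mul_mem_right _ ha, I.mul_mem_right _ ha⟩,
    (b * x.1, b * x.2), ⟨J.mul_mem_right _ hb, J.mul_mem_right _ hb⟩, ?_⟩
  apply Prod.ext
  · show a * x.1 + b * x.1 = x.1
    rw [← add_mul, hab, one_mul]
  · show a * x.2 + b * x.2 = x.2
    rw [← add_mul, hab, one_mul]

/-- an ideal which is comaximal with all members of a finite family -/
theorem gam_sup_inf {A ι : Type} [CommRing A] {I : Ideal A} {T : Finset ι} {J : ι → Ideal A}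
    (h : ∀ i ∈ T, I ⊔ J i = ⊤) : gam I ⊔ T.inf (fun i => gam (J i)) = ⊤ := by
  classical
  have h1 : I ⊔ ⨅ i ∈ T, J i = ⊤ := Ideal.sup_iInf_eq_top h
  rw [eq_top_iff, ← gam_sup h1]
  refine sup_le_sup_left ?_ _
  refine Finset.le_inf (fun i hi => gam_mono ?_)
  exact iInf₂_le i hi

theorem index_toAddSubgroup {A : Type} [CommRing A] (I : Ideal A) :
    I.toAddSubgroup.index = Nat.card (A ⧸ I) := rfl

/-- the index of the lattice of both coordinates -/
theorem index_gam {A : Type} [CommRing A] (I : Ideal A) :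
    (gam I).index = Nat.card (A ⧸ I) ^ 2 := by
  unfold gam
  rw [AddSubgroup.index_prod, index_toAddSubgroup, sq]

/-- the index of the lattice of a root -/
theorem index_lam {A : Type} [CommRing A] (I : Ideal A) (s : A) :
    (lam I s).index = Nat.card (A ⧸ I) := by
  unfold lam
  rw [AddSubgroup.index_comap_of_surjective, index_toAddSubgroup]
  intro y
  refine ⟨(y, 0), ?_⟩
  show y - s * 0 = y
  rw [mul_zero, sub_zero]

section NF

variable {K : Type} [Field K] [NumberField K]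

theorem index_gam_pl (q : Pl K) : (gam q.asIdeal).index = nm q ^ 2 := by
  rw [index_gam, card_quot]

theorem index_lam_pl (q : Pl K) (s : 𝓞 K) : (lam q.asIdeal s).index = nm q := by
  rw [index_lam, card_quot]

/-- different places are comaximal -/
theorem sup_pl {q q' : Pl K} (h : q ≠ q') : q.asIdeal ⊔ q'.asIdeal = ⊤ := by
  have h1 : q.asIdeal ≠ q'.asIdeal := fun h' => h (IsDedekindDomain.HeightOneSpectrum.ext h')
  exact Ideal.IsMaximal.coprime_of_ne q.isMaximal q'.isMaximal h1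

/-- comaximality of different places -/
theorem com_pl {ι : Type} (T : Finset ι) (f : ι → Pl K) (q : Pl K) (h : ∀ i ∈ T, f i ≠ q) :
    gam q.asIdeal ⊔ T.inf (fun i => gam (f i).asIdeal) = ⊤ :=
  gam_sup_inf (fun i hi => sup_pl (h i hi).symm)

/-- comaximality with the lattice of the multiples of `m` -/
theorem com_span {ι : Type} (T : Finset ι) (f : ι → Pl K) (m : 𝓞 K)
    (h : ∀ i ∈ T, m ∉ (f i).asIdeal) :
    gam (Ideal.span {m}) ⊔ T.inf (fun i => gam (f i).asIdeal) = ⊤ := by
  refine gam_sup_inf (fun i hi => ?_)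
  rw [sup_comm]
  refine (f i).isMaximal.1.2 _ (lt_of_le_of_ne le_sup_left (fun h1 => h i hi ?_))
  rw [h1]
  exact Ideal.mem_sup_right (Ideal.mem_span_singleton_self m)

/-- the norm kills the quotient -/
theorem nm_nsmul_mem (q : Pl K) (g : 𝓞 K × 𝓞 K) : nm q • g ∈ gam q.asIdeal := by
  have h1 : ((nm q : ℕ) : 𝓞 K) ∈ q.asIdeal := Ideal.absNorm_mem _
  rw [mem_gam]
  constructor
  · rw [Prod.smul_fst, nsmul_eq_mul]
    exact q.asIdeal.mul_mem_right _ h1
  · rw [Prod.smul_snd, nsmul_eq_mul]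
    exact q.asIdeal.mul_mem_right _ h1

/-- the index of the multiples of `m` -/
theorem index_span_ne_zero {m : 𝓞 K} (hm : m ≠ 0) : (gam (Ideal.span {m})).index ≠ 0 := by
  rw [index_gam]
  have h1 : Finite (𝓞 K ⧸ Ideal.span {m}) :=
    Ideal.finiteQuotientOfFreeOfNeBot _ (fun h => hm (Ideal.span_singleton_eq_bot.1 h))
  exact pow_ne_zero _ Nat.card_pos.ne'

end NF

end Pool.Agent.Helper25.CB
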