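import Pool.Agent.Helper25.CB.Ev
import Pool.Agent.Helper35.CB.InstDefs
import Pool.Agent.Helper4.CB.CORE

/-!
# CB, INST: the sieve system of a number field and its factors
-/

set_option autoImplicit false

namespace Pool.Agent.Helper25.CB

open Finset NumberField Polynomial Pool.Agent.Helper4.CB
open Pool.Agent.Helper35.CB (Pm eK)

variable {K : Type} [Field K] [NumberField K]

/-! ## the events -/

/-- the event of the place `q`: `q` divides `v` or one of the values `P(u, m v)` -/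
def EV (S : Finset (𝓞 K)[X]) (m : 𝓞 K) (q : Pl K) : Set (𝓞 K × 𝓞 K) :=
  {g | g.2 ∈ q.asIdeal ∨ ∃ P ∈ S, hv P g.1 (m * g.2) ∈ q.asIdeal}

/-- representatives of the roots of `P` modulo `q` -/
noncomputable def rts (P : (𝓞 K)[X]) (hP : P.Monic) (q : Pl K) : Finset (𝓞 K) :=
  (exists_roots q.asIdeal q.isMaximal hP).choose

theorem rts_card (P : (𝓞 K)[X]) (hP : P.Monic) (q : Pl K) :
    (rts P hP q).card ≤ P.natDegree := (exists_roots q.asIdeal q.isMaximal hP).choose_spec.1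

theorem rts_root {P : (𝓞 K)[X]} {hP : P.Monic} {q : Pl K} {t : 𝓞 K} (ht : t ∈ rts P hP q) :
    P.eval t ∈ q.asIdeal := (exists_roots q.asIdeal q.isMaximal hP).choose_spec.2.1 t ht

theorem rts_rep (P : (𝓞 K)[X]) (hP : P.Monic) (q : Pl K) {t : 𝓞 K} (ht : P.eval t ∈ q.asIdeal) :
    ∃ t' ∈ rts P hP q, t - t' ∈ q.asIdeal :=
  (exists_roots q.asIdeal q.isMaximal hP).choose_spec.2.2.1 t ht

/-- the events are the union of the lattices -/
theorem mem_EV_iff {S : Finset (𝓞 K)[X]} (hS : ∀ P ∈ S, P.Monic) {m : 𝓞 K} {q : Pl K}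
    (hm : m ∉ q.asIdeal) (g : 𝓞 K × 𝓞 K) :
    g ∈ EV S m q ↔ g.2 ∈ q.asIdeal ∨ ∃ (P : (𝓞 K)[X]) (hP : P ∈ S), ∃ t ∈ rts P (hS P hP) q,
      g ∈ lam q.asIdeal (m * t) := by
  constructor
  · rintro (h | ⟨P, hP, h⟩)
    · exact Or.inl h
    · by_cases hg : g.2 ∈ q.asIdeal
      · exact Or.inl hg
      · obtain ⟨t, ht, h1⟩ := exists_root_unit q.isMaximal hm hg h
        obtain ⟨t', ht', h2⟩ := rts_rep P (hS P hP) q ht
        refine Or.inr ⟨P, hP, t', ht', ?_⟩
        have h3 : lam q.asIdeal (m * t) = lam q.asIdeal (m * t') := by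
          apply lam_congr
          rw [← mul_sub]
          exact q.asIdeal.mul_mem_left _ h2
        rw [← h3]
        exact h1
  · rintro (h | ⟨P, hP, t, ht, h⟩)
    · exact Or.inl h
    · exact Or.inr ⟨P, hP, hom_of_root (rts_root ht) h⟩

theorem EV_add_mem {S : Finset (𝓞 K)[X]} (hS : ∀ P ∈ S, P.Monic) {m : 𝓞 K} {q : Pl K}
    (hm : m ∉ q.asIdeal) {g h : 𝓞 K × 𝓞 K} (hg : g ∈ EV S m q) (hh : h ∈ gam q.asIdeal) :
    g + h ∈ EV S m q := by
  rw [mem_EV_iff hS hm] at hg ⊢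
  rcases hg with hg | ⟨P, hP, t, ht, h1⟩
  · exact Or.inl (q.asIdeal.add_mem hg hh.2)
  · exact Or.inr ⟨P, hP, t, ht, (lam _ _).add_mem h1 (gam_le_lam _ _ hh)⟩

/-- the lattice of all `(u, v)` with `v ∈ q` -/
def lav (q : Pl K) : AddSubgroup (𝓞 K × 𝓞 K) :=
  q.asIdeal.toAddSubgroup.comap (AddMonoidHom.snd (𝓞 K) (𝓞 K))

theorem mem_lav {q : Pl K} {g : 𝓞 K × 𝓞 K} : g ∈ lav q ↔ g.2 ∈ q.asIdeal := Iff.rfl

theorem gam_le_lav (q : Pl K) : gam q.asIdeal ≤ lav q := fun _ h => h.2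

theorem index_lav (q : Pl K) : (lav q).index = nm q := by
  unfold lav
  rw [AddSubgroup.index_comap_of_surjective _ (fun y => ⟨(0, y), rfl⟩), index_toAddSubgroup,
    card_quot]

/-- the classes of a lattice of index `nm q` -/
theorem ncard_of_index (q : Pl K) (Λ : AddSubgroup (𝓞 K × 𝓞 K)) (hΛ : gam q.asIdeal ≤ Λ)
    (hi : Λ.index = nm q) :
    ((QuotientAddGroup.mk : 𝓞 K × 𝓞 K → (𝓞 K × 𝓞 K) ⧸ gam q.asIdeal) ''
      (Λ : Set (𝓞 K × 𝓞 K))).ncard = nm q := by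
  have h1 : (gam q.asIdeal).relIndex Λ * Λ.index = (gam q.asIdeal).index :=
    AddSubgroup.relIndex_mul_index hΛ
  rw [hi, index_gam_pl, sq] at h1
  have h2 : (gam q.asIdeal).relIndex Λ = nm q :=
    Nat.eq_of_mul_eq_mul_right (by have := two_le_nm q; omega) h1
  have h3 := AddSubgroup.relIndex_ker Λ (QuotientAddGroup.mk' (gam q.asIdeal))
  rw [QuotientAddGroup.ker_mk'] at h3
  rw [← h2, h3]
  rfl

/-- the number of classes of the event -/
theorem dens_EV {S : Finset (𝓞 K)[X]} (hS : ∀ P ∈ S, P.Monic) {m : 𝓞 K} {q : Pl K}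
    (hm : m ∉ q.asIdeal) {D : ℕ} (hD : ∑ P ∈ S, P.natDegree + 1 ≤ D) :
    ((QuotientAddGroup.mk : 𝓞 K × 𝓞 K → (𝓞 K × 𝓞 K) ⧸ gam q.asIdeal) '' (EV S m q)).ncard ≤
      D * nm q := by
  classical
  choose! R hR1 hR2 hR3 hR4 using fun (P : (𝓞 K)[X]) (hP : P.Monic) =>
    exists_roots q.asIdeal q.isMaximal hP
  have hfin : Finite ((𝓞 K × 𝓞 K) ⧸ gam q.asIdeal) := by
    rw [← AddSubgroup.index_ne_zero_iff_finite, index_gam_pl]
    exact pow_ne_zero _ (by have := two_le_nm q; omega)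
  have hsub : EV S m q ⊆ (lav q : Set (𝓞 K × 𝓞 K)) ∪
      ⋃ x ∈ S.sigma R, (lam q.asIdeal (m * x.2) : Set (𝓞 K × 𝓞 K)) := by
    rintro g (hg | ⟨P, hP, hg⟩)
    · exact Or.inl hg
    · by_cases hg2 : g.2 ∈ q.asIdeal
      · exact Or.inl hg2
      · right
        obtain ⟨t, ht, h1⟩ := exists_root_unit q.isMaximal hm hg2 hg
        obtain ⟨t', ht', h2⟩ := hR3 P (hS P hP) t ht
        refine Set.mem_biUnion (x := ⟨P, t'⟩) (mem_sigma.2 ⟨hP, ht'⟩) ?_
        have h3 : lam q.asIdeal (m * t) = lam q.asIdeal (m * t') := by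
          apply lam_congr
          rw [← mul_sub]
          exact q.asIdeal.mul_mem_left _ h2
        show g ∈ lam q.asIdeal (m * t')
        rw [← h3]
        exact h1
  refine (Set.ncard_le_ncard (Set.image_mono hsub) (Set.toFinite _)).trans ?_
  rw [Set.image_union, Set.image_iUnion₂]
  refine (Set.ncard_union_le _ _).trans ?_
  have h4 : (⋃ x ∈ S.sigma R, (QuotientAddGroup.mk : 𝓞 K × 𝓞 K → (𝓞 K × 𝓞 K) ⧸
      gam q.asIdeal) '' (lam q.asIdeal (m * x.2) : Set (𝓞 K × 𝓞 K))).ncard ≤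
      ∑ x ∈ S.sigma R, nm q := by
    refine (Finset.set_ncard_biUnion_le _ _).trans (Finset.sum_le_sum (fun x _ => ?_))
    exact (ncard_of_index q _ (gam_le_lam _ _) (index_lam_pl q _)).le
  have h5 : ∑ x ∈ S.sigma R, nm q ≤ (∑ P ∈ S, P.natDegree) * nm q := by
    rw [sum_const, smul_eq_mul, card_sigma]
    exact Nat.mul_le_mul_right _ (Finset.sum_le_sum (fun P hP => hR1 P (hS P hP)))
  have h6 := (ncard_of_index q _ (gam_le_lav q) (index_lav q)).le
  calc _ ≤ nm q + (∑ P ∈ S, P.natDegree) * nm q := add_le_add h6 (h4.trans h5)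
    _ = (∑ P ∈ S, P.natDegree + 1) * nm q := by ring
    _ ≤ D * nm q := Nat.mul_le_mul_right _ hD

/-! ## the system -/

/-- the sieve system -/
noncomputable def sysK (S : Finset (𝓞 K)[X]) (hS : ∀ P ∈ S, P.Monic) (m D : ℕ)
    (hD : ∑ P ∈ S, P.natDegree + 1 ≤ D) :
    Sys (2 * Module.finrank ℚ K) (𝓞 K × 𝓞 K) where
  e := eK K
  Q := Pm K m
  nm := fun q => nm q.1
  Γ := fun q => gam q.1.asIdeal
  E := fun q => EV S (m : 𝓞 K) q.1
  D := D
  two_le := fun q => two_le_nm q.1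
  fin := fun x => (finite_nm_le K x).preimage Subtype.val_injective.injOn
  index := fun q => index_gam_pl q.1
  smul_mem := fun q g => nm_nsmul_mem q.1 g
  com := fun T q hq => com_pl T (fun i => i.1) q.1 (fun i hi h => hq (by
    have h1 : i = q := Subtype.ext h
    rwa [← h1]))
  add_mem := fun q _ _ hg hh => EV_add_mem hS q.2 hg hh
  sub := fun _ _ hg => Or.inl hg.2
  dens := fun q => dens_EV hS q.2 hD

variable {S : Finset (𝓞 K)[X]} {hS : ∀ P ∈ S, P.Monic} {m D : ℕ}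
  {hD : ∑ P ∈ S, P.natDegree + 1 ≤ D}

/-- comaximality with the base lattice -/
theorem sysK_com (T : Finset (sysK S hS m D hD).Q) :
    gam (Ideal.span {(m : 𝓞 K)}) ⊔ T.inf (sysK S hS m D hD).Γ = ⊤ :=
  com_span T (fun i => i.1) (m : 𝓞 K) (fun i _ => i.2)

/-- the factor `v` -/
noncomputable def facV (S : Finset (𝓞 K)[X]) (hS : ∀ P ∈ S, P.Monic) (m D : ℕ)
    (hD : ∑ P ∈ S, P.natDegree + 1 ≤ D) :
    Fac (Module.finrank ℚ K) (sysK S hS m D hD) where
  P := Pm K m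
  pn := fun p => nm p.1
  un := fun p => p
  Λ := fun p => lav p.1
  d := 1
  one_le := le_rfl
  le_two := one_le_two
  index := fun p => index_lav p.1
  le := fun p => gam_le_lav p.1
  nm_le := fun _ => le_rfl
  fib_fin := fun q => by
    refine (Set.finite_singleton q).subset ?_
    intro p hp
    exact hp
  fib := fun q => by
    have h : ∀ q' : Pm K m, ({p : Pm K m | p = q'} : Set (Pm K m)).ncard ≤ 2 := by
      intro q'
      rw [Set.ofPred_eq_eq_singleton, Set.ncard_singleton]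
      norm_num
    exact h q
  C := (rad_snd K (eK K)).choose
  rad := fun p ρ hρ => (rad_snd K (eK K)).choose_spec p.1 (lav p.1) (fun _ => mem_lav) ρ
    (by rwa [one_mul] at hρ)

/-- the factor `P(u, m v)` -/
noncomputable def facP (S : Finset (𝓞 K)[X]) (hS : ∀ P ∈ S, P.Monic) (m D : ℕ)
    (hD : ∑ P ∈ S, P.natDegree + 1 ≤ D) (hm : m ≠ 0) (P : (𝓞 K)[X]) (hP : P.Monic)
    (h1 : 1 ≤ P.natDegree) (h2 : P.natDegree ≤ 2)
    (hirr : Irreducible (P.map (algebraMap (𝓞 K) K))) :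
    Fac (Module.finrank ℚ K) (sysK S hS m D hD) where
  P := Σ q : Pm K m, {t : 𝓞 K // t ∈ rts P hP q.1}
  pn := fun p => nm p.1.1
  un := fun p => p.1
  Λ := fun p => lam p.1.1.asIdeal ((m : 𝓞 K) * p.2.1)
  d := P.natDegree
  one_le := h1
  le_two := h2
  index := fun p => index_lam_pl p.1.1 _
  le := fun p => gam_le_lam _ _
  nm_le := fun _ => le_rfl
  fib_fin := fun q => by
    refine (Set.finite_range (fun t : {t : 𝓞 K // t ∈ rts P hP q.1} =>
      (⟨q, t⟩ : Σ q : Pm K m, {t : 𝓞 K // t ∈ rts P hP q.1}))).subset ?_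
    rintro ⟨q', t⟩ hp
    have hp' : q' = q := hp
    subst hp'
    exact ⟨t, rfl⟩
  fib := fun q => by
    have h3 : {p : Σ q : Pm K m, {t : 𝓞 K // t ∈ rts P hP q.1} |
        p.1 = q} ⊆ Set.range (fun t : {t : 𝓞 K // t ∈ rts P hP q.1} =>
      (⟨q, t⟩ : Σ q : Pm K m, {t : 𝓞 K // t ∈ rts P hP q.1})) := by
      rintro ⟨q', t⟩ hp
      have hp' : q' = q := hp
      subst hp'
      exact ⟨t, rfl⟩
    refine (Set.ncard_le_ncard h3 (Set.finite_range _)).trans ?_
    rw [← Set.image_univ]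
    refine (Set.ncard_image_le (Set.finite_univ)).trans ?_
    rw [Set.ncard_univ, Nat.card_eq_fintype_card, Fintype.card_coe]
    exact (rts_card P hP q.1).trans h2
  C := (rad_fac K (eK K) P hP hirr h2 (m : 𝓞 K) (Nat.cast_ne_zero.2 hm)).choose
  rad := fun p ρ hρ =>
    (rad_fac K (eK K) P hP hirr h2 (m : 𝓞 K) (Nat.cast_ne_zero.2 hm)).choose_spec p.1.1 p.2.1
      (rts_root p.2.2) _ (fun _ => mem_lam) ρ hρ

/-- **cover**: the events are covered by the lattices of the factors -/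
theorem EV_cover (hS : ∀ P ∈ S, P.Monic) (q : Pm K m) {g : 𝓞 K × 𝓞 K}
    (hg : g ∈ EV S (m : 𝓞 K) q.1) :
    g ∈ lav q.1 ∨ ∃ (P : (𝓞 K)[X]) (hP : P ∈ S), ∃ t ∈ rts P (hS P hP) q.1,
      g ∈ lam q.1.asIdeal ((m : 𝓞 K) * t) :=
  (mem_EV_iff hS q.2 g).1 hg

/-! ## sums over the places -/

/-- the place of an index of the system -/
def toPl (q : (sysK S hS m D hD).Q) : Pl K := (show Pm K m from q).1

theorem toPl_inj : Function.Injective (toPl (S := S) (hS := hS) (m := m) (hD := hD)) :=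
  fun _ _ h => Subtype.ext h

/-- sums over the places of the system -/
theorem sum_le_sum_sys (y : ℕ) (p : Pl K → Prop) (f : ℕ → ℝ) (hf : ∀ n, 0 ≤ f n)
    (_ : DecidablePred (fun q : (sysK S hS m D hD).Q => p (toPl q)))
    (_ : DecidablePred p) :
    ∑ q ∈ ((sysK S hS m D hD).le y).filter (fun q => p (toPl q)),
      f ((sysK S hS m D hD).nm q) ≤ ∑ v ∈ (plLE K y).filter p, f (nm v) := by
  have h1 : ∑ q ∈ ((sysK S hS m D hD).le y).filter (fun q => p (toPl q)),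
      f ((sysK S hS m D hD).nm q) =
      ∑ v ∈ (((sysK S hS m D hD).le y).filter (fun q => p (toPl q))).map
        ⟨toPl, toPl_inj⟩, f (nm v) := by
    rw [sum_map]
    rfl
  rw [h1]
  refine sum_le_sum_of_subset_of_nonneg ?_ (fun v _ _ => hf _)
  intro v hv
  rw [mem_map] at hv
  obtain ⟨q, hq, rfl⟩ := hv
  rw [mem_filter, Sys.mem_le] at hq
  rw [mem_filter, mem_plLE]
  exact hq

/-- the sum of `N q ^ (-3/2)` -/
theorem rpow_sys {C : ℝ} (hC : ∀ F : Finset (Pl K), ∑ v ∈ F, (nm v : ℝ) ^ (-(3 / 2) : ℝ) ≤ C)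
    (T : Finset (sysK S hS m D hD).Q) :
    ∑ q ∈ T, ((sysK S hS m D hD).nm q : ℝ) ^ (-(3 / 2) : ℝ) ≤ C := by
  refine le_trans (le_of_eq ?_) (hC (T.map ⟨toPl, toPl_inj⟩))
  rw [sum_map]
  rfl

open Classical in
/-- Mertens' upper bound for the system -/
theorem mert_sys {C : ℝ} (hC : ∀ x y : ℕ, 1 ≤ x → x ≤ y →
      ∑ v ∈ (plLE K y).filter (fun v => x < nm v), Real.log (nm v) / nm v ≤
        C * (Real.log y - Real.log x + 1)) : (sysK S hS m D hD).Mert C := by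
  intro x y hx hxy
  refine le_trans ?_ (hC x y hx hxy)
  refine le_trans (le_of_eq ?_) (sum_le_sum_sys (S := S) (hS := hS) (m := m) (hD := hD) y
    (fun v => x < nm v) (fun n => Real.log n / n)
    (fun n => div_nonneg (Real.log_natCast_nonneg n) (Nat.cast_nonneg n))
    (Classical.decPred _) _)
  refine Finset.sum_congr ?_ (fun _ _ => rfl)
  ext q
  rw [mem_filter, mem_filter]
  exact Iff.rfl

open Classical in
/-- the sum over the bad places of the system -/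
theorem bad_sys {ε : ℝ} {M : ℕ} (hC : ∀ x : ℕ, 1 ≤ x →
      ∑ v ∈ (plLE K x).filter (fun v => nm v ≡ 1 [MOD M]), Real.log (nm v) / nm v ≤
        ε * Real.log x) (x : ℕ) (hx : 1 ≤ x) :
    ∑ q ∈ ((sysK S hS m D hD).le x).filter
      (fun q => q ∈ {q : (sysK S hS m D hD).Q | nm (toPl q) ≡ 1 [MOD M]}),
      Real.log ((sysK S hS m D hD).nm q) / (sysK S hS m D hD).nm q ≤
        ε * Real.log x := by
  refine le_trans ?_ (hC x hx)
  refine le_trans (le_of_eq ?_) (sum_le_sum_sys (S := S) (hS := hS) (m := m) (hD := hD) x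
    (fun v => nm v ≡ 1 [MOD M]) (fun n => Real.log n / n)
    (fun n => div_nonneg (Real.log_natCast_nonneg n) (Nat.cast_nonneg n))
    (Classical.decPred _) _)
  refine Finset.sum_congr ?_ (fun _ _ => rfl)
  ext q
  rw [mem_filter, mem_filter]
  exact Iff.rfl

end Pool.Agent.Helper25.CB
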