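import Pool.Agent.Helper25.CB.Lat
import Pool.Agent.Helper4.CB.STM

/-!
# CB: the set of all `(u, v)` such that `q` divides `P(u, m v)`
-/

set_option autoImplicit false

namespace Pool.Agent.Helper25.CB

open Finset NumberField Polynomial Pool.Agent.Helper4.CB

/-! ## general rings -/

section Ring

variable {A : Type} [CommRing A]

/-- the homogenised value depends only on the classes -/
theorem hom_congr {P : A[X]} {u u' V V' : A} {q : Ideal A} (h1 : u - u' ∈ q) (h2 : V - V' ∈ q) :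
    (P.scaleRoots V).eval u - (P.scaleRoots V').eval u' ∈ q := by
  have key : ∀ u V : A, Ideal.Quotient.mk q ((P.scaleRoots V).eval u) =
      ∑ i ∈ range (P.natDegree + 1), Ideal.Quotient.mk q (P.coeff i) *
        (Ideal.Quotient.mk q V) ^ (P.natDegree - i) * (Ideal.Quotient.mk q u) ^ i := by
    intro u V
    rw [eval_eq_sum_range, natDegree_scaleRoots, map_sum]
    refine Finset.sum_congr rfl (fun i _ => ?_)
    rw [coeff_scaleRoots, map_mul, map_mul, map_pow, map_pow]
  rw [← Ideal.Quotient.eq, key, key, Ideal.Quotient.eq.2 h1, Ideal.Quotient.eq.2 h2]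

/-- `P(s, 0) = s ^ d` for a monic polynomial -/
theorem hom_zero {P : A[X]} (hP : P.Monic) (u : A) :
    (P.scaleRoots 0).eval u = u ^ P.natDegree := by
  rw [eval_eq_sum_range, natDegree_scaleRoots, Finset.sum_eq_single P.natDegree]
  · rw [coeff_scaleRoots, Nat.sub_self, pow_zero, mul_one, coeff_natDegree, hP.leadingCoeff,
      one_mul]
  · intro i hi hne
    rw [mem_range] at hi
    rw [coeff_scaleRoots, zero_pow (by omega), mul_zero, zero_mul]
  · intro h
    exact absurd (mem_range.2 (Nat.lt_succ_self _)) h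

/-- a root gives the divisibility -/
theorem hom_of_root {P : A[X]} {q : Ideal A} {u v m t : A} (ht : P.eval t ∈ q)
    (h : u - m * t * v ∈ q) : (P.scaleRoots (m * v)).eval u ∈ q := by
  have h1 : (P.scaleRoots (m * v)).eval u - (P.scaleRoots (m * v)).eval (m * v * t) ∈ q := by
    refine hom_congr ?_ (by rw [sub_self]; exact q.zero_mem)
    have e : m * v * t = m * t * v := by ring
    rw [e]
    exact h
  have h2 : (P.scaleRoots (m * v)).eval (m * v * t) ∈ q := by
    rw [scaleRoots_eval_mul]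
    exact q.mul_mem_left _ ht
  have h3 := q.add_mem h1 h2
  rwa [sub_add_cancel] at h3

/-- the divisibility gives a root if `v` is a unit -/
theorem exists_root_unit {P : A[X]} {q : Ideal A} (hq : q.IsMaximal) {u v m : A}
    (hm : m ∉ q) (hv : v ∉ q) (h : (P.scaleRoots (m * v)).eval u ∈ q) :
    ∃ t, P.eval t ∈ q ∧ u - m * t * v ∈ q := by
  have hp : q.IsPrime := hq.isPrime
  have hmv : m * v ∉ q := fun h => (hp.mem_or_mem h).elim hm hv
  obtain ⟨w, hw⟩ := hq.exists_inv hmv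
  obtain ⟨i, hi, hwi⟩ := hw
  have h1 : u - m * (u * w) * v ∈ q := by
    have e : u - m * (u * w) * v = u * i := by
      linear_combination -u * hwi
    rw [e]
    exact q.mul_mem_left _ hi
  refine ⟨u * w, ?_, h1⟩
  have h2 : (P.scaleRoots (m * v)).eval (m * v * (u * w)) -
      (P.scaleRoots (m * v)).eval u ∈ q := by
    refine hom_congr ?_ (by rw [sub_self]; exact q.zero_mem)
    have e : m * v * (u * w) - u = -(u - m * (u * w) * v) := by ring
    rw [e]
    exact q.neg_mem h1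
  have h3 := q.add_mem h2 h
  rw [sub_add_cancel, scaleRoots_eval_mul] at h3
  rcases hp.mem_or_mem h3 with h4 | h4
  · exact absurd (hp.mem_of_pow_mem _ h4) hmv
  · exact h4

/-- the divisibility gives a root or common divisibility -/
theorem exists_root {P : A[X]} (hP : P.Monic) {q : Ideal A} (hq : q.IsMaximal) {u v m : A}
    (hm : m ∉ q) (h : (P.scaleRoots (m * v)).eval u ∈ q) (hn : ¬ (u ∈ q ∧ v ∈ q)) :
    v ∉ q ∧ ∃ t, P.eval t ∈ q ∧ u - m * t * v ∈ q := by
  have hp : q.IsPrime := hq.isPrime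
  have hv : v ∉ q := by
    intro hv
    apply hn
    refine ⟨?_, hv⟩
    have h1 : (P.scaleRoots (m * v)).eval u - (P.scaleRoots 0).eval u ∈ q :=
      hom_congr (by rw [sub_self]; exact q.zero_mem) (by
        rw [sub_zero]
        exact q.mul_mem_left _ hv)
    rw [hom_zero hP] at h1
    have h2 := q.sub_mem h h1
    rw [sub_sub_cancel] at h2
    exact hp.mem_of_pow_mem _ h2
  exact ⟨hv, exists_root_unit hq hm hv h⟩

/-- the lattice of a root depends only on its class -/
theorem lam_congr {q : Ideal A} {s s' : A} (h : s - s' ∈ q) : lam q s = lam q s' := by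
  ext x
  rw [mem_lam, mem_lam]
  constructor
  · intro h1
    have h2 := q.add_mem h1 (q.mul_mem_right x.2 h)
    have e : x.1 - s * x.2 + (s - s') * x.2 = x.1 - s' * x.2 := by ring
    rwa [e] at h2
  · intro h1
    have h2 := q.sub_mem h1 (q.mul_mem_right x.2 h)
    have e : x.1 - s' * x.2 - (s - s') * x.2 = x.1 - s * x.2 := by ring
    rwa [e] at h2

/-- representatives of the roots modulo a maximal ideal -/
theorem exists_roots (q : Ideal A) (hq : q.IsMaximal) {P : A[X]} (hP : P.Monic) :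
    ∃ R : Finset A, R.card ≤ P.natDegree ∧ (∀ t ∈ R, P.eval t ∈ q) ∧
      (∀ t, P.eval t ∈ q → ∃ t' ∈ R, t - t' ∈ q) ∧
      (∀ t ∈ R, ∀ t' ∈ R, t - t' ∈ q → t = t') := by
  classical
  let _ : Field (A ⧸ q) := Ideal.Quotient.field q
  choose s hs using Ideal.Quotient.mk_surjective (I := q)
  have hev : ∀ t : A, (P.map (Ideal.Quotient.mk q)).eval (Ideal.Quotient.mk q t) =
      Ideal.Quotient.mk q (P.eval t) := fun t => by
    rw [eval_map, eval₂_at_apply]
  have hne : P.map (Ideal.Quotient.mk q) ≠ 0 := (hP.map _).ne_zero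
  refine ⟨(P.map (Ideal.Quotient.mk q)).roots.toFinset.image s, ?_, ?_, ?_, ?_⟩
  · refine card_image_le.trans ((Multiset.toFinset_card_le _).trans ((card_roots' _).trans ?_))
    exact natDegree_map_le
  · intro t ht
    rw [mem_image] at ht
    obtain ⟨r, hr, rfl⟩ := ht
    rw [Multiset.mem_toFinset, mem_roots hne, IsRoot.def, ← hs r, hev] at hr
    exact Ideal.Quotient.eq_zero_iff_mem.1 hr
  · intro t ht
    refine ⟨s (Ideal.Quotient.mk q t), mem_image_of_mem _ ?_, ?_⟩
    · rw [Multiset.mem_toFinset, mem_roots hne, IsRoot.def, hev]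
      exact Ideal.Quotient.eq_zero_iff_mem.2 ht
    · rw [← Ideal.Quotient.eq, hs]
  · intro t ht t' ht' h
    rw [mem_image] at ht ht'
    obtain ⟨r, hr, rfl⟩ := ht
    obtain ⟨r', hr', rfl⟩ := ht'
    rw [← Ideal.Quotient.eq, hs, hs] at h
    rw [h]

end Ring

/-! ## the events -/

section NF

variable {K : Type} [Field K] [NumberField K]

/-- the event of the place `q`: common divisibility or divisibility of one of the values -/
def Eq (S : Finset (𝓞 K)[X]) (m : 𝓞 K) (q : Pl K) : Set (𝓞 K × 𝓞 K) :=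
  {g | g ∈ gam q.asIdeal ∨ ∃ P ∈ S, hv P g.1 (m * g.2) ∈ q.asIdeal}

theorem mem_Eq_iff {S : Finset (𝓞 K)[X]} (hS : ∀ P ∈ S, P.Monic) {m : 𝓞 K} {q : Pl K}
    (hm : m ∉ q.asIdeal) (g : 𝓞 K × 𝓞 K) :
    g ∈ Eq S m q ↔ g ∈ gam q.asIdeal ∨ ∃ P ∈ S, ∃ t, P.eval t ∈ q.asIdeal ∧
      g ∈ lam q.asIdeal (m * t) := by
  constructor
  · rintro (h | ⟨P, hP, h⟩)
    · exact Or.inl h
    · by_cases hg : g ∈ gam q.asIdeal
      · exact Or.inl hg
      · obtain ⟨_, t, ht, h1⟩ := exists_root (hS P hP) q.isMaximal hm h hg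
        exact Or.inr ⟨P, hP, t, ht, h1⟩
  · rintro (h | ⟨P, hP, t, ht, h⟩)
    · exact Or.inl h
    · exact Or.inr ⟨P, hP, hom_of_root ht h⟩

theorem Eq_add_mem {S : Finset (𝓞 K)[X]} (hS : ∀ P ∈ S, P.Monic) {m : 𝓞 K} {q : Pl K}
    (hm : m ∉ q.asIdeal) {g h : 𝓞 K × 𝓞 K} (hg : g ∈ Eq S m q) (hh : h ∈ gam q.asIdeal) :
    g + h ∈ Eq S m q := by
  rw [mem_Eq_iff hS hm] at hg ⊢
  rcases hg with hg | ⟨P, hP, t, ht, h1⟩
  · exact Or.inl ((gam q.asIdeal).add_mem hg hh)
  · exact Or.inr ⟨P, hP, t, ht, (lam _ _).add_mem h1 (gam_le_lam _ _ hh)⟩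

/-- the classes of the lattice of a root -/
theorem ncard_lam (q : Pl K) (s : 𝓞 K) :
    ((QuotientAddGroup.mk : 𝓞 K × 𝓞 K → (𝓞 K × 𝓞 K) ⧸ gam q.asIdeal) ''
      (lam q.asIdeal s : Set (𝓞 K × 𝓞 K))).ncard = nm q := by
  have h1 : (gam q.asIdeal).relIndex (lam q.asIdeal s) * (lam q.asIdeal s).index =
      (gam q.asIdeal).index := AddSubgroup.relIndex_mul_index (gam_le_lam _ _)
  rw [index_lam_pl, index_gam_pl, sq] at h1
  have h2 : (gam q.asIdeal).relIndex (lam q.asIdeal s) = nm q :=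
    Nat.eq_of_mul_eq_mul_right (by have := two_le_nm q; omega) h1
  have h3 := AddSubgroup.relIndex_ker (lam q.asIdeal s) (QuotientAddGroup.mk' (gam q.asIdeal))
  rw [QuotientAddGroup.ker_mk'] at h3
  rw [← h2, h3]
  rfl

/-- the number of classes of the event -/
theorem dens_Eq {S : Finset (𝓞 K)[X]} (hS : ∀ P ∈ S, P.Monic) {m : 𝓞 K} {q : Pl K}
    (hm : m ∉ q.asIdeal) {D : ℕ} (hD : 1 ≤ D) (hSD : ∑ P ∈ S, P.natDegree ≤ D) :
    ((QuotientAddGroup.mk : 𝓞 K × 𝓞 K → (𝓞 K × 𝓞 K) ⧸ gam q.asIdeal) '' (Eq S m q)).ncard ≤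
      D * nm q := by
  classical
  choose! R hR1 hR2 hR3 hR4 using fun (P : (𝓞 K)[X]) (hP : P.Monic) =>
    exists_roots q.asIdeal q.isMaximal hP
  by_cases hE : ∃ P ∈ S, (R P).Nonempty
  · have hsub : Eq S m q ⊆ ⋃ x ∈ S.sigma R, (lam q.asIdeal (m * x.2) : Set (𝓞 K × 𝓞 K)) := by
      intro g hg
      rw [mem_Eq_iff hS hm] at hg
      rcases hg with hg | ⟨P, hP, t, ht, h1⟩
      · obtain ⟨P, hP, t, ht⟩ := hE
        refine Set.mem_biUnion (x := ⟨P, t⟩) (mem_sigma.2 ⟨hP, ht⟩) ?_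
        exact gam_le_lam _ _ hg
      · obtain ⟨t', ht', h2⟩ := hR3 P (hS P hP) t ht
        refine Set.mem_biUnion (x := ⟨P, t'⟩) (mem_sigma.2 ⟨hP, ht'⟩) ?_
        have h3 : lam q.asIdeal (m * t) = lam q.asIdeal (m * t') := by
          apply lam_congr
          rw [← mul_sub]
          exact q.asIdeal.mul_mem_left _ h2
        show g ∈ lam q.asIdeal (m * t')
        rw [← h3]
        exact h1
    have hfin : Finite ((𝓞 K × 𝓞 K) ⧸ gam q.asIdeal) := by
      rw [← AddSubgroup.index_ne_zero_iff_finite, index_gam_pl]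
      exact pow_ne_zero _ (by have := two_le_nm q; omega)
    refine (Set.ncard_le_ncard (Set.image_mono hsub) (Set.toFinite _)).trans ?_
    rw [Set.image_iUnion₂]
    have h4 : (⋃ x ∈ S.sigma R, (QuotientAddGroup.mk : 𝓞 K × 𝓞 K → (𝓞 K × 𝓞 K) ⧸
        gam q.asIdeal) '' (lam q.asIdeal (m * x.2) : Set (𝓞 K × 𝓞 K))).ncard ≤
        ∑ x ∈ S.sigma R, nm q := by
      refine (Finset.set_ncard_biUnion_le _ _).trans (Finset.sum_le_sum (fun x _ => ?_))
      exact (ncard_lam q _).le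
    refine h4.trans ?_
    rw [sum_const, smul_eq_mul, card_sigma]
    refine Nat.mul_le_mul_right _ (le_trans (Finset.sum_le_sum (fun P hP => hR1 P (hS P hP))) hSD)
  · push Not at hE
    have hsub : Eq S m q ⊆ (gam q.asIdeal : Set (𝓞 K × 𝓞 K)) := by
      intro g hg
      rw [mem_Eq_iff hS hm] at hg
      rcases hg with hg | ⟨P, hP, t, ht, h1⟩
      · exact hg
      · obtain ⟨t', ht', h2⟩ := hR3 P (hS P hP) t ht
        rw [hE P hP] at ht'
        exact absurd ht' (notMem_empty _)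
    have h1 : (QuotientAddGroup.mk : 𝓞 K × 𝓞 K → (𝓞 K × 𝓞 K) ⧸ gam q.asIdeal) '' (Eq S m q) ⊆
        {0} := by
      rintro _ ⟨g, hg, rfl⟩
      exact (QuotientAddGroup.eq_zero_iff g).2 (hsub hg)
    refine (Set.ncard_le_ncard h1 (Set.finite_singleton _)).trans ?_
    rw [Set.ncard_singleton]
    have := two_le_nm q
    exact Nat.mul_pos hD (by omega)

end NF

end Pool.Agent.Helper25.CB
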