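import Pool.Agent.Helper4.CB.COV

/-!
# CB: covering radius of the lattices `{(u, v) | u - s v ∈ q}`, `s` a root of `P` modulo `q`
-/

set_option autoImplicit false

namespace Pool.Agent.Helper25.CB

open Finset NumberField Polynomial Pool.Agent.Helper4.CB

variable {K : Type} [Field K] [NumberField K]

/-- the homomorphism `(u, v) ↦ u - s v` -/
def lin {R : Type} [CommRing R] {A : Type} [CommRing A] [Algebra A R] (s : R) : A × A →+ R where
  toFun x := algebraMap A R x.1 - s * algebraMap A R x.2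
  map_zero' := by simp
  map_add' x y := by
    simp only [Prod.fst_add, Prod.snd_add, map_add]
    ring

/-- the lattice of all `(u, v)` with `u - s v ∈ q` -/
def lam {A : Type} [CommRing A] (q : Ideal A) (s : A) : AddSubgroup (A × A) :=
  q.toAddSubgroup.comap (lin (A := A) s)

theorem mem_lam {A : Type} [CommRing A] {q : Ideal A} {s : A} {x : A × A} :
    x ∈ lam q s ↔ x.1 - s * x.2 ∈ q := Iff.rfl

/-- a monic polynomial over an integral domain which is irreducible over the field of fractions is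
prime -/
theorem prime_of_map {A F : Type} [CommRing A] [IsDomain A] [Field F] [Algebra A F]
    [FaithfulSMul A F] {P : A[X]} (hP : P.Monic)
    (hirr : Irreducible (P.map (algebraMap A F))) : Prime P := by
  have hinj : Function.Injective (algebraMap A F) := FaithfulSMul.algebraMap_injective A F
  refine ⟨hP.ne_zero, ?_, fun f g h => ?_⟩
  · intro hu
    exact hirr.not_isUnit (hu.map (mapRingHom (algebraMap A F)))
  · rw [← map_dvd_map (algebraMap A F) hinj hP, Polynomial.map_mul] at h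
    rw [← map_dvd_map (algebraMap A F) hinj hP, ← map_dvd_map (algebraMap A F) hinj hP]
    exact hirr.prime.dvd_or_dvd h

/-- a basis of `𝓞 K [X] / P` over `ℤ` -/
theorem exists_basis {P : (𝓞 K)[X]} (hP : P.Monic) :
    Nonempty (Module.Basis (Fin (P.natDegree * Module.finrank ℚ K)) ℤ (AdjoinRoot P)) := by
  classical
  have b := (RingOfIntegers.basis K).smulTower (AdjoinRoot.powerBasis' hP).basis
  refine ⟨b.reindex (Fintype.equivFinOfCardEq ?_)⟩
  rw [Fintype.card_prod, Fintype.card_fin, AdjoinRoot.powerBasis'_dim, mul_comm]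
  congr 1
  rw [← RingOfIntegers.rank K, Module.finrank_eq_card_chooseBasisIndex]

/-- **RAD.** -/
theorem rad_lam {P : (𝓞 K)[X]} (hP : P.Monic) (hd1 : 1 ≤ P.natDegree) (hd : P.natDegree ≤ 2)
    (hirr : Irreducible (P.map (algebraMap (𝓞 K) K))) {N : ℕ}
    (e : (Fin N → ℤ) ≃+ 𝓞 K × 𝓞 K) :
    ∃ C : ℕ, ∀ (q : Pl K) (s : 𝓞 K), P.eval s ∈ q.asIdeal → ∀ ρ : ℕ,
      nm q ≤ ρ ^ (P.natDegree * Module.finrank ℚ K) → Rad e (lam q.asIdeal s) (C * ρ) := by
  classical
  have hdom : IsDomain (AdjoinRoot P) := AdjoinRoot.isDomain_of_prime (prime_of_map hP hirr)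
  obtain ⟨b⟩ := exists_basis hP
  have hr : 0 < P.natDegree * Module.finrank ℚ K :=
    Nat.mul_pos hd1 Module.finrank_pos
  have hsurj : Function.Surjective
      (lin (A := 𝓞 K) (AdjoinRoot.root P) : 𝓞 K × 𝓞 K →+ AdjoinRoot P) := by
    intro y
    obtain ⟨f, rfl⟩ := AdjoinRoot.mk_surjective y
    have h1 : AdjoinRoot.mk P f = AdjoinRoot.mk P (f %ₘ P) := by
      rw [AdjoinRoot.mk_eq_mk]
      exact ⟨f /ₘ P, by
        have := modByMonic_add_div f P
        linear_combination -this⟩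
    have h2 : (f %ₘ P).natDegree < 2 := by
      have := natDegree_modByMonic_lt f hP (by
        intro h
        rw [h, natDegree_one] at hd1
        omega)
      omega
    have h3 : f %ₘ P = C ((f %ₘ P).coeff 1) * X + C ((f %ₘ P).coeff 0) :=
      eq_X_add_C_of_natDegree_le_one (by omega)
    refine ⟨((f %ₘ P).coeff 0, -(f %ₘ P).coeff 1), ?_⟩
    rw [h1]
    conv_rhs => rw [h3]
    show algebraMap (𝓞 K) (AdjoinRoot P) ((f %ₘ P).coeff 0) -
      AdjoinRoot.root P * algebraMap (𝓞 K) (AdjoinRoot P) (-(f %ₘ P).coeff 1) = _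
    rw [map_add, map_mul, AdjoinRoot.mk_X, AdjoinRoot.mk_C, AdjoinRoot.mk_C, map_neg]
    show AdjoinRoot.of P _ - AdjoinRoot.root P * -(AdjoinRoot.of P _) = _
    ring
  obtain ⟨C, hC⟩ := cov b hr e _ hsurj
  refine ⟨C, fun q s hs ρ hρ => ?_⟩
  -- the map to the residue field
  let ψ : AdjoinRoot P →+* 𝓞 K ⧸ q.asIdeal :=
    AdjoinRoot.lift (Ideal.Quotient.mk q.asIdeal) (Ideal.Quotient.mk q.asIdeal s) (by
      rw [eval₂_at_apply]
      exact Ideal.Quotient.eq_zero_iff_mem.2 hs)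
  have hψ : Function.Surjective ψ := by
    intro y
    obtain ⟨a, rfl⟩ := Ideal.Quotient.mk_surjective y
    exact ⟨AdjoinRoot.of P a, AdjoinRoot.lift_of _⟩
  have hcard : Nat.card (AdjoinRoot P ⧸ RingHom.ker ψ) = nm q := by
    rw [Nat.card_congr (RingHom.quotientKerEquivOfSurjective hψ).toEquiv]
    unfold nm
    rw [Ideal.absNorm_apply, Submodule.cardQuot_apply]
  have hne : RingHom.ker ψ ≠ ⊥ := by
    intro h0
    have h1 : Function.Injective ψ := (RingHom.injective_iff_ker_eq_bot ψ).2 h0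
    obtain ⟨a, ha, ha0⟩ := Submodule.exists_mem_ne_zero_of_ne_bot q.ne_bot
    have h2 : ψ (AdjoinRoot.of P a) = 0 := by
      show AdjoinRoot.lift _ _ _ _ = 0
      rw [AdjoinRoot.lift_of]
      exact Ideal.Quotient.eq_zero_iff_mem.2 ha
    have h3 : AdjoinRoot.of P a = 0 := h1 (h2.trans (map_zero ψ).symm)
    apply ha0
    have h4 : Function.Injective (AdjoinRoot.of P) :=
      AdjoinRoot.of.injective_of_degree_ne_zero (by
        rw [degree_eq_natDegree hP.ne_zero]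
        exact_mod_cast (by omega : P.natDegree ≠ 0))
    exact h4 (h3.trans (map_zero _).symm)
  have h5 := hC (RingHom.ker ψ) hne ρ (by rw [hcard]; exact_mod_cast hρ)
  have h6 : (RingHom.ker ψ).toAddSubgroup.comap
      (lin (A := 𝓞 K) (AdjoinRoot.root P) : 𝓞 K × 𝓞 K →+ AdjoinRoot P) = lam q.asIdeal s := by
    ext x
    rw [AddSubgroup.mem_comap, Submodule.mem_toAddSubgroup, RingHom.mem_ker, mem_lam]
    show ψ (algebraMap (𝓞 K) (AdjoinRoot P) x.1 -
      AdjoinRoot.root P * algebraMap (𝓞 K) (AdjoinRoot P) x.2) = 0 ↔ _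
    rw [map_sub, map_mul]
    have e1 : ∀ a : 𝓞 K, ψ (algebraMap (𝓞 K) (AdjoinRoot P) a) = Ideal.Quotient.mk q.asIdeal a :=
      fun a => AdjoinRoot.lift_of _
    have e2 : ψ (AdjoinRoot.root P) = Ideal.Quotient.mk q.asIdeal s := AdjoinRoot.lift_root _
    rw [e1, e1, e2, ← map_mul, ← map_sub, Ideal.Quotient.eq_zero_iff_mem]
  rw [h6] at h5
  exact h5

/-- scaling the roots keeps irreducibility -/
theorem irreducible_scaleRoots {F : Type} [Field F] {p : F[X]} {s : F} (hs : s ≠ 0)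
    (h : Irreducible p) : Irreducible (p.scaleRoots s) := by
  refine ⟨fun hu => ?_, fun a b hab => ?_⟩
  · have h1 := natDegree_eq_zero_of_isUnit hu
    rw [natDegree_scaleRoots] at h1
    have := h.natDegree_pos
    omega
  · have h1 : p = a.scaleRoots s⁻¹ * b.scaleRoots s⁻¹ := by
      rw [← mul_scaleRoots_of_noZeroDivisors, ← hab, ← scaleRoots_mul, mul_inv_cancel₀ hs,
        scaleRoots_one]
    have hp := h.ne_zero
    have key : ∀ c : F[X], c ≠ 0 → IsUnit (c.scaleRoots s⁻¹) → IsUnit c := by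
      intro c hc hu
      have h2 := natDegree_eq_zero_of_isUnit hu
      rw [natDegree_scaleRoots] at h2
      rw [isUnit_iff_degree_eq_zero, degree_eq_natDegree hc, h2]
      rfl
    have ha : a ≠ 0 := by
      rintro rfl
      rw [zero_scaleRoots, zero_mul] at h1
      exact hp h1
    have hb : b ≠ 0 := by
      rintro rfl
      rw [zero_scaleRoots, mul_zero] at h1
      exact hp h1
    rcases h.isUnit_or_isUnit h1 with h2 | h2
    · exact Or.inl (key a ha h2)
    · exact Or.inr (key b hb h2)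

/-- **RAD**, with the roots multiplied by `m` -/
theorem rad_fac (K : Type) [Field K] [NumberField K] {N : ℕ} (e : (Fin N → ℤ) ≃+ 𝓞 K × 𝓞 K)
    (P : (𝓞 K)[X]) (hP : P.Monic) (hirr : Irreducible (P.map (algebraMap (𝓞 K) K)))
    (hd : P.natDegree ≤ 2) (m : 𝓞 K) (hm : m ≠ 0) :
    ∃ C : ℕ, ∀ (q : Pl K) (t : 𝓞 K), P.eval t ∈ q.asIdeal → ∀ (Λ : AddSubgroup (𝓞 K × 𝓞 K)),
      (∀ g, g ∈ Λ ↔ g.1 - m * t * g.2 ∈ q.asIdeal) → ∀ ρ : ℕ,
        nm q ≤ ρ ^ (P.natDegree * Module.finrank ℚ K) → Rad e Λ (C * ρ) := by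
  have hinj : Function.Injective (algebraMap (𝓞 K) K) := FaithfulSMul.algebraMap_injective _ _
  have hPm : (P.scaleRoots m).Monic := (monic_scaleRoots_iff m).2 hP
  have hd1 : 1 ≤ P.natDegree := by
    have h1 := hirr.natDegree_pos
    rwa [natDegree_map_eq_of_injective hinj] at h1
  have hirr' : Irreducible ((P.scaleRoots m).map (algebraMap (𝓞 K) K)) := by
    rw [map_scaleRoots _ _ _ (by rw [hP.leadingCoeff, map_one]; exact one_ne_zero)]
    exact irreducible_scaleRoots (fun h => hm (hinj (h.trans (map_zero _).symm))) hirr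
  obtain ⟨C, hC⟩ := rad_lam hPm (by rwa [natDegree_scaleRoots]) (by rwa [natDegree_scaleRoots])
    hirr' e
  refine ⟨C, fun q t ht Λ hΛ ρ hρ => ?_⟩
  have h1 : Λ = lam q.asIdeal (m * t) := by
    ext x
    rw [hΛ, mem_lam]
  rw [h1]
  refine hC q (m * t) ?_ ρ (by rwa [natDegree_scaleRoots])
  rw [scaleRoots_eval_mul]
  exact q.asIdeal.mul_mem_left _ ht

/-- a basis of `𝓞 K` over `ℤ` -/
theorem exists_basisO (K : Type) [Field K] [NumberField K] :
    Nonempty (Module.Basis (Fin (Module.finrank ℚ K)) ℤ (𝓞 K)) := by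
  classical
  refine ⟨(RingOfIntegers.basis K).reindex (Fintype.equivFinOfCardEq ?_)⟩
  rw [← RingOfIntegers.rank K, Module.finrank_eq_card_chooseBasisIndex]

theorem card_quot (q : Pl K) : Nat.card (𝓞 K ⧸ q.asIdeal) = nm q := by
  unfold nm
  rw [Ideal.absNorm_apply, Submodule.cardQuot_apply]

/-- **RAD** for the second coordinate -/
theorem rad_snd (K : Type) [Field K] [NumberField K] {N : ℕ} (e : (Fin N → ℤ) ≃+ 𝓞 K × 𝓞 K) :
    ∃ C : ℕ, ∀ (q : Pl K) (Λ : AddSubgroup (𝓞 K × 𝓞 K)),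
      (∀ g, g ∈ Λ ↔ g.2 ∈ q.asIdeal) → ∀ ρ : ℕ,
        nm q ≤ ρ ^ (Module.finrank ℚ K) → Rad e Λ (C * ρ) := by
  obtain ⟨b⟩ := exists_basisO K
  obtain ⟨C, hC⟩ := cov b Module.finrank_pos e (AddMonoidHom.snd (𝓞 K) (𝓞 K))
    (fun y => ⟨(0, y), rfl⟩)
  refine ⟨C, fun q Λ hΛ ρ hρ => ?_⟩
  have h1 : Λ = q.asIdeal.toAddSubgroup.comap (AddMonoidHom.snd (𝓞 K) (𝓞 K)) := by
    ext x
    rw [hΛ]
    rfl
  rw [h1]
  exact hC q.asIdeal q.ne_bot ρ (by rw [card_quot]; exact_mod_cast hρ)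

/-- **RAD** for both coordinates -/
theorem rad_both (K : Type) [Field K] [NumberField K] {N : ℕ} (e : (Fin N → ℤ) ≃+ 𝓞 K × 𝓞 K) :
    ∃ C : ℕ, ∀ (q : Pl K) (Λ : AddSubgroup (𝓞 K × 𝓞 K)),
      (∀ g, g ∈ Λ ↔ g.1 ∈ q.asIdeal ∧ g.2 ∈ q.asIdeal) → ∀ ρ : ℕ,
        nm q ≤ ρ ^ (Module.finrank ℚ K) → Rad e Λ (C * ρ) := by
  classical
  obtain ⟨b⟩ := exists_basisO K
  obtain ⟨C, hC⟩ := cov_ring b Module.finrank_pos
  refine ⟨C * (∑ p : Fin (Module.finrank ℚ K) × Fin N, (e.symm (b p.1, 0) p.2).natAbs +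
    ∑ p : Fin (Module.finrank ℚ K) × Fin N, (e.symm (0, b p.1) p.2).natAbs),
    fun q Λ hΛ ρ hρ g => ?_⟩
  have hρ' : (Nat.card (𝓞 K ⧸ q.asIdeal) : ℝ) ≤ (ρ : ℝ) ^ Module.finrank ℚ K := by
    rw [card_quot]
    exact_mod_cast hρ
  obtain ⟨l1, hl1, h1⟩ := hC q.asIdeal q.ne_bot ρ hρ' g.1
  obtain ⟨l2, hl2, h2⟩ := hC q.asIdeal q.ne_bot ρ hρ' g.2
  refine ⟨(l1, l2), (hΛ _).2 ⟨hl1, hl2⟩, fun k => ?_⟩
  have h3 : g - (l1, l2) = ∑ i, (b.repr (g.1 - l1) i) • ((b i, 0) : 𝓞 K × 𝓞 K) +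
      ∑ i, (b.repr (g.2 - l2) i) • ((0, b i) : 𝓞 K × 𝓞 K) := by
    apply Prod.ext
    · rw [Prod.fst_add, Prod.fst_sum, Prod.fst_sum]
      simp only [Prod.smul_fst, smul_zero, Finset.sum_const_zero, add_zero]
      exact (b.sum_repr (g.1 - l1)).symm
    · rw [Prod.snd_add, Prod.snd_sum, Prod.snd_sum]
      simp only [Prod.smul_snd, smul_zero, Finset.sum_const_zero, zero_add]
      exact (b.sum_repr (g.2 - l2)).symm
  have key : ∀ (c : Fin (Module.finrank ℚ K) → ℤ) (x : Fin (Module.finrank ℚ K) → 𝓞 K × 𝓞 K),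
      (∀ i, |c i| ≤ ((C * ρ : ℕ) : ℤ)) → |e.symm (∑ i, c i • x i) k| ≤
        ((C * ρ : ℕ) : ℤ) * ((∑ p : Fin (Module.finrank ℚ K) × Fin N,
          (e.symm (x p.1) p.2).natAbs : ℕ) : ℤ) := by
    intro c x hc
    rw [map_sum, Finset.sum_apply]
    calc |∑ i, e.symm (c i • x i) k| ≤ ∑ i, |e.symm (c i • x i) k| :=
          Finset.abs_sum_le_sum_abs _ _
      _ ≤ ∑ i, ((C * ρ : ℕ) : ℤ) * ((e.symm (x i) k).natAbs : ℤ) := by
          refine Finset.sum_le_sum (fun i _ => ?_)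
          rw [map_zsmul, Pi.smul_apply, smul_eq_mul, abs_mul,
            ← Int.natCast_natAbs (e.symm (x i) k)]
          exact mul_le_mul_of_nonneg_right (hc i) (Int.natCast_nonneg _)
      _ ≤ _ := by
          rw [← Finset.mul_sum]
          refine mul_le_mul_of_nonneg_left ?_ (Int.natCast_nonneg _)
          push_cast
          rw [Fintype.sum_prod_type]
          refine Finset.sum_le_sum (fun i _ => ?_)
          exact Finset.single_le_sum (f := fun k => |e.symm (x i) k|)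
            (fun _ _ => abs_nonneg _) (Finset.mem_univ k)
  rw [h3, map_add, Pi.add_apply]
  refine (abs_add_le _ _).trans ((add_le_add (key _ _ h1) (key _ _ h2)).trans (le_of_eq ?_))
  push_cast
  ring

end Pool.Agent.Helper25.CB
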